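import Pool.Agent.Helper865.ToepAP.Base

set_option autoImplicit false

open MeasureTheory Filter Topology Set Metric
open scoped ENNReal NNReal BoundedContinuousFunction

namespace Pool.Agent.Helper865.ToepAP

/-- Product of a bounded continuous function and an `L^p` function. -/
theorem memLp_mul {p : ℝ≥0∞} (g : ℝ →ᵇ ℂ) {f : ℝ → ℂ} (hf : MemLp f p volume) :
    MemLp (fun t => g t * f t) p volume := by
  apply MemLp.of_le_mul (c := ‖g‖) hf (g.continuous.aestronglyMeasurable.mul hf.1)
  filter_upwards with t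
  show ‖g t * f t‖ ≤ _
  rw [norm_mul]
  exact mul_le_mul_of_nonneg_right (g.norm_coe_le_norm t) (norm_nonneg _)

/-- Multiplication by a bounded continuous function on `L^p(ℝ)`. -/
noncomputable def mulL {p : ℝ≥0∞} [Fact (1 ≤ p)] (g : ℝ →ᵇ ℂ) :
    LpR p →L[ℂ] LpR p :=
  LinearMap.mkContinuous
    { toFun := fun f => MemLp.toLp (fun t => g t * f t) (memLp_mul g (Lp.memLp f))
      map_add' := by
        intro f1 f2
        apply Lp.ext
        filter_upwards [(memLp_mul g (Lp.memLp (f1 + f2))).coeFn_toLp, (memLp_mul g (Lp.memLp f1)).coeFn_toLp,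
          (memLp_mul g (Lp.memLp f2)).coeFn_toLp, Lp.coeFn_add f1 f2,
          Lp.coeFn_add ((memLp_mul g (Lp.memLp f1)).toLp _) ((memLp_mul g (Lp.memLp f2)).toLp _)] with x h1 h2 h3 h4 h5
        rw [h1, h5, Pi.add_apply, h2, h3, h4, Pi.add_apply]
        ring
      map_smul' := by
        intro a f
        apply Lp.ext
        filter_upwards [(memLp_mul g (Lp.memLp (a • f))).coeFn_toLp, (memLp_mul g (Lp.memLp f)).coeFn_toLp,
          Lp.coeFn_smul a f, Lp.coeFn_smul a ((memLp_mul g (Lp.memLp f)).toLp _)] with x h1 h2 h3 h4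
        rw [h1, RingHom.id_apply, h4, Pi.smul_apply, h2, h3, Pi.smul_apply, smul_eq_mul, smul_eq_mul]
        ring } ‖g‖ (by
      intro f
      apply Lp.norm_le_mul_norm_of_ae_le_mul
      filter_upwards [(memLp_mul g (Lp.memLp f)).coeFn_toLp] with x h1
      show ‖((memLp_mul g (Lp.memLp f)).toLp _ : ℝ → ℂ) x‖ ≤ _
      rw [h1, norm_mul]
      exact mul_le_mul_of_nonneg_right (g.norm_coe_le_norm x) (norm_nonneg _))

theorem mulL_coe {p : ℝ≥0∞} [Fact (1 ≤ p)] (g : ℝ →ᵇ ℂ) (f : LpR p) :
    (mulL g f : ℝ → ℂ) =ᵐ[volume] fun t => g t * f t :=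
  (memLp_mul g (Lp.memLp f)).coeFn_toLp

theorem norm_mulL_le {p : ℝ≥0∞} [Fact (1 ≤ p)] (g : ℝ →ᵇ ℂ) :
    ‖(mulL g : LpR p →L[ℂ] LpR p)‖ ≤ ‖g‖ :=
  LinearMap.mkContinuous_norm_le _ (norm_nonneg _) _

/-- Translation `f ↦ f(· - h)` on `L^p(ℝ)` as a linear isometric equivalence. -/
theorem exists_translation {p : ℝ≥0∞} [Fact (1 ≤ p)] (h : ℝ) :
    ∃ V : LpR p ≃ₗᵢ[ℂ] LpR p,
      (∀ f, (V f : ℝ → ℂ) =ᵐ[volume] fun t => f (t - h)) ∧
      (∀ f, (V.symm f : ℝ → ℂ) =ᵐ[volume] fun t => f (t + h)) := by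
  have hm1 : MeasurePreserving (fun t : ℝ => t - h) volume volume := measurePreserving_sub_right volume h
  have hm2 : MeasurePreserving (fun t : ℝ => t + h) volume volume := measurePreserving_add_right volume h
  have hid : ∀ (F : ℝ → ℝ) (hF : MeasurePreserving F volume volume), F = id →
      ∀ g : LpR p, Lp.compMeasurePreserving F hF g = g := by
    intro F hF hFid g
    subst hFid
    exact Lp.compMeasurePreserving_id_apply g
  let L1 := Lp.compMeasurePreservingₗᵢ (E := ℂ) (p := p) ℂ (fun t : ℝ => t - h) hm1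
  let L2 := Lp.compMeasurePreservingₗᵢ (E := ℂ) (p := p) ℂ (fun t : ℝ => t + h) hm2
  have h12 : ∀ g, L1 (L2 g) = g := by
    intro g
    show Lp.compMeasurePreserving _ hm1 (Lp.compMeasurePreserving _ hm2 g) = g
    rw [← Lp.compMeasurePreserving_comp_apply]
    apply hid
    funext t
    simp
  have h21 : ∀ g, L2 (L1 g) = g := by
    intro g
    show Lp.compMeasurePreserving _ hm2 (Lp.compMeasurePreserving _ hm1 g) = g
    rw [← Lp.compMeasurePreserving_comp_apply]
    apply hid
    funext t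
    simp
  refine ⟨{ toLinearEquiv := LinearEquiv.ofLinearMap L1.toLinearMap L2.toLinearMap (LinearMap.ext h12) (LinearMap.ext h21)
            norm_map' := fun f => L1.norm_map f }, ?_, ?_⟩
  · intro f
    exact Lp.coeFn_compMeasurePreserving f hm1
  · intro f
    exact Lp.coeFn_compMeasurePreserving f hm2

/-- Restriction of a linear isometric equivalence to an invariant submodule, then to a product. -/
theorem exists_pi_restrict {X : Type*} [NormedAddCommGroup X] [NormedSpace ℂ X]
    (H : Submodule ℂ X) (V : X ≃ₗᵢ[ℂ] X) (h1 : ∀ f ∈ H, V f ∈ H) (h2 : ∀ f ∈ H, V.symm f ∈ H)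
    (n : ℕ) :
    ∃ W : (Fin n → H) ≃ₗᵢ[ℂ] (Fin n → H), (∀ f i, ((W f i : H) : X) = V (f i)) ∧
      (∀ f i, ((W.symm f i : H) : X) = V.symm (f i)) := by
  refine ⟨{ toFun := fun f i => ⟨V (f i), h1 _ (f i).2⟩
            map_add' := fun f g => by ext i; simp
            map_smul' := fun c f => by ext i; simp
            invFun := fun f i => ⟨V.symm (f i), h2 _ (f i).2⟩
            left_inv := fun f => by ext i; simp
            right_inv := fun f => by ext i; simp
            norm_map' := fun f => by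
              rw [Pi.norm_def, Pi.norm_def]
              congr 2
              funext i
              apply NNReal.eq
              exact V.norm_map (f i : X) }, fun f i => rfl, fun f i => rfl⟩

end Pool.Agent.Helper865.ToepAP
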