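import Pool.Agent.Helper865.ToepAP.Hardy
import Pool.Agent.Helper865.ToepAP.Mul
import Pool.Agent.Helper865.TAP.ThmB3
import Pool.Agent.Helper865.TAP.H1
import Pool.Agent.Helper865.TAP.H2
import Pool.Agent.Helper865.TAP.S3

set_option autoImplicit false

open MeasureTheory Filter Topology Set Metric
open scoped ENNReal NNReal BoundedContinuousFunction

namespace Pool.Agent.Helper865.ToepAP

open Pool.Agent.Helper865

/-- The exponential `t ↦ e^{iλt}` as a bounded continuous function on the line. -/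
noncomputable def expChar (l : ℝ) : ℝ →ᵇ ℂ :=
  BoundedContinuousFunction.ofNormedAddCommGroup (fun t : ℝ => Complex.exp (Complex.I * l * t))
    (by fun_prop) 1 (fun t => by
      rw [Complex.norm_exp]
      simp)

/-- The algebra `AP` of almost periodic functions: the uniform closure of the finite sums
`∑ cⱼ e^{iλⱼt}` with `cⱼ` complex and `λⱼ` real. -/
noncomputable def AP : Submodule ℂ (ℝ →ᵇ ℂ) :=
  (Submodule.span ℂ (Set.range expChar)).topologicalClosure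

theorem mem_HardyMinus_iff {p : ℝ≥0∞} [Fact (1 ≤ p)] (h1 : 1 < p) (h2 : p ≠ ⊤)
    (f : LpR p) : f ∈ HardyMinus p ↔ TAP.Hm p (f : ℝ → ℂ) := by
  constructor
  · rintro ⟨F, hF, ⟨C, hC⟩, hlim⟩
    exact ⟨Lp.memLp f, fun a ha =>
      TAP.H1.cauchy_zero_of_hardy_lower h1 h2 (Lp.memLp f) hF hC hlim a ha⟩
  · intro hf
    exact TAP.H2.hardy_lower_of_cauchy_zero TAP.tendsto_pois
      (fun p hp hp' f hf y hy => TAP.J2.eLpNorm_pois_le hp hp' hf hy)
      (fun p hp hp' f hf y hy x => TAP.A2.pois_eq_cauchy hp hp' hf hy x) h1 h2 hf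

theorem mem_HardyPlus_iff {p : ℝ≥0∞} [Fact (1 ≤ p)] (h1 : 1 < p) (h2 : p ≠ ⊤)
    (f : LpR p) : f ∈ HardyPlus p ↔ TAP.Hp p (f : ℝ → ℂ) := by
  constructor
  · rintro ⟨F, hF, ⟨C, hC⟩, hlim⟩
    exact ⟨Lp.memLp f, fun a ha =>
      TAP.H1.cauchy_zero_of_hardy_upper h1 h2 (Lp.memLp f) hF hC hlim a ha⟩
  · intro hf
    exact TAP.H2.hardy_upper_of_cauchy_zero TAP.tendsto_pois
      (fun p hp hp' f hf y hy => TAP.J2.eLpNorm_pois_le hp hp' hf hy) h1 h2 hf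

/-- The theorem of M. Riesz: `L^p(ℝ)` is the direct sum of the two Hardy spaces, `1 < p < ∞`. -/
theorem exists_riesz {p : ℝ≥0∞} [Fact (1 ≤ p)] (h1 : 1 < p) (h2 : p ≠ ⊤) :
    ∃ P : LpR p →L[ℂ] HardyMinus p,
      (∀ f : HardyMinus p, P f = f) ∧ (∀ f ∈ HardyPlus p, P f = 0) ∧
      ∀ f : LpR p, f - P f ∈ HardyPlus p := by
  have hpr : ENNReal.ofReal p.toReal = p := ENNReal.ofReal_toReal h2
  have hp1 : 1 < p.toReal := by
    have := (ENNReal.toReal_lt_toReal ENNReal.one_ne_top h2).2 h1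
    simpa using this
  obtain ⟨C, hC, _, hriesz, _⟩ := TAP.riesz_pkg ℂ hp1
  rw [hpr] at hriesz
  exact TAP.S3.exists_riesz_aux h1 h2 (HardyMinus p) (HardyPlus p) (mem_HardyMinus_iff h1 h2)
    (mem_HardyPlus_iff h1 h2) hC hriesz
    (fun f hf hf' => TAP.eq_zero_of_Hm_Hp h1.le h2 hf hf')

/-- The Riesz projection of `L^p(ℝ)` onto the Hardy space of the lower half-plane (along the Hardy
space of the upper half-plane). -/
noncomputable def riesz {p : ℝ≥0∞} [Fact (1 ≤ p)] (h1 : 1 < p) (h2 : p ≠ ⊤) :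
    LpR p →L[ℂ] HardyMinus p :=
  (exists_riesz h1 h2).choose

/-- The Toeplitz operator `T_G = P_- G` on `(H^p_-)^n`, i.e. `(T_G f)_i = ∑_j P_- (G_{ij} f_j)`. -/
noncomputable def toeplitz {p : ℝ≥0∞} [Fact (1 ≤ p)] (h1 : 1 < p) (h2 : p ≠ ⊤) {n : ℕ}
    (G : Matrix (Fin n) (Fin n) (ℝ →ᵇ ℂ)) :
    (Fin n → HardyMinus p) →L[ℂ] (Fin n → HardyMinus p) :=
  ContinuousLinearMap.pi fun i => ∑ j, (riesz h1 h2).comp
    ((mulL (G i j)).comp ((HardyMinus p).subtypeL.comp (ContinuousLinearMap.proj j)))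

/-- Left-Fredholm: closed range and finite-dimensional kernel. -/
def LeftFredholm {X : Type*} [NormedAddCommGroup X] [NormedSpace ℂ X] (T : X →L[ℂ] X) : Prop :=
  IsClosed (Set.range T) ∧ FiniteDimensional ℂ (LinearMap.ker (T : X →ₗ[ℂ] X))

/-- Right-Fredholm: closed range of finite codimension. -/
def RightFredholm {X : Type*} [NormedAddCommGroup X] [NormedSpace ℂ X] (T : X →L[ℂ] X) : Prop :=
  IsClosed (Set.range T) ∧ FiniteDimensional ℂ (X ⧸ LinearMap.range (T : X →ₗ[ℂ] X))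

theorem riesz_spec {p : ℝ≥0∞} [Fact (1 ≤ p)] (h1 : 1 < p) (h2 : p ≠ ⊤) :
    (∀ f : HardyMinus p, riesz h1 h2 f = f) ∧ (∀ f ∈ HardyPlus p, riesz h1 h2 f = 0) ∧
      ∀ f : LpR p, f - riesz h1 h2 f ∈ HardyPlus p :=
  (exists_riesz h1 h2).choose_spec

theorem toeplitz_apply {p : ℝ≥0∞} [Fact (1 ≤ p)] (h1 : 1 < p) (h2 : p ≠ ⊤) {n : ℕ}
    (G : Matrix (Fin n) (Fin n) (ℝ →ᵇ ℂ)) (f : Fin n → HardyMinus p) (i : Fin n) :
    toeplitz h1 h2 G f i = ∑ j, riesz h1 h2 (mulL (G i j) (f j)) := by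
  simp [toeplitz]

end Pool.Agent.Helper865.ToepAP
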