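import Mathlib

set_option autoImplicit false

open MeasureTheory
open scoped ENNReal

namespace Pool.Agent.Helper865.ToepAP

/-- The space `L^p(ℝ)` of complex valued functions. -/
abbrev LpR (p : ℝ≥0∞) : Type := Lp ℂ p (volume : Measure ℝ)

end Pool.Agent.Helper865.ToepAP
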