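import Pool.Agent.Helper865.ToepAP.Fred
import Pool.Agent.Helper865.TAP.Indep2
import Pool.Agent.Helper865.TAP.S4
import Pool.Agent.Helper865.TAP.S5

set_option autoImplicit false

open MeasureTheory Filter Topology Set Metric
open scoped ENNReal NNReal BoundedContinuousFunction

namespace Pool.Agent.Helper865.ToepAP

open Pool.Agent.Helper865

section comp

variable {p : ℝ≥0∞}

theorem Hm_comp_iff (h1 : 1 < p) (h2 : p ≠ ⊤) {n : ℕ} (u : ℝ → EuclideanSpace ℂ (Fin n)) :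
    TAP.Hm p u ↔ ∀ i, TAP.Hm p (fun t => u t i) := by
  constructor
  · intro hu i
    exact TAP.A3.Hm_clm h1 h2 hu (EuclideanSpace.proj i : EuclideanSpace ℂ (Fin n) →L[ℂ] ℂ)
  · intro hu
    have h3 : ∀ i ∈ (Finset.univ : Finset (Fin n)),
        TAP.Hm p (fun t => (u t i) • (EuclideanSpace.single i (1 : ℂ) :
          EuclideanSpace ℂ (Fin n))) := fun i _ =>
      TAP.A3.Hm_clm h1 h2 (hu i) (ContinuousLinearMap.toSpanSingleton ℂ
        (EuclideanSpace.single i (1 : ℂ) : EuclideanSpace ℂ (Fin n)))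
    refine TAP.A3.Hm_congr (TAP.A3.Hm_sum h1 h2 _ h3) (Eventually.of_forall fun t => ?_)
    ext i
    simp [Pi.single_apply]

theorem Hp_comp_iff (h1 : 1 < p) (h2 : p ≠ ⊤) {n : ℕ} (u : ℝ → EuclideanSpace ℂ (Fin n)) :
    TAP.Hp p u ↔ ∀ i, TAP.Hp p (fun t => u t i) := by
  constructor
  · intro hu i
    exact TAP.A3.Hp_clm h1 h2 hu (EuclideanSpace.proj i : EuclideanSpace ℂ (Fin n) →L[ℂ] ℂ)
  · intro hu
    have h3 : ∀ i ∈ (Finset.univ : Finset (Fin n)),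
        TAP.Hp p (fun t => (u t i) • (EuclideanSpace.single i (1 : ℂ) :
          EuclideanSpace ℂ (Fin n))) := fun i _ =>
      TAP.A3.Hp_clm h1 h2 (hu i) (ContinuousLinearMap.toSpanSingleton ℂ
        (EuclideanSpace.single i (1 : ℂ) : EuclideanSpace ℂ (Fin n)))
    refine TAP.A3.Hp_congr (TAP.A3.Hp_sum h1 h2 _ h3) (Eventually.of_forall fun t => ?_)
    ext i
    simp [Pi.single_apply]

end comp

variable {p : ℝ≥0∞} [Fact (1 ≤ p)]

theorem link (h1 : 1 < p) (h2 : p ≠ ⊤) {n : ℕ} (G : Matrix (Fin n) (Fin n) (ℝ →ᵇ ℂ)) :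
    ((∃ K : ℝ, 0 < K ∧ TAP.BB p (TAP.S4.Gop G) K) ↔
      ∃ c : ℝ, 0 < c ∧ ∀ f, ‖f‖ ≤ c * ‖toeplitz h1 h2 G f‖) ∧
    ((∃ K : ℝ, 0 < K ∧ TAP.OO p (TAP.S4.Gop G) K) ↔ Function.Surjective (toeplitz h1 h2 G)) := by
  obtain ⟨hr1, hr2, hr3⟩ := riesz_spec h1 h2
  have := TAP.S5.link h1 h2 (HardyMinus p) (HardyPlus p) (mem_HardyMinus_iff h1 h2)
    (mem_HardyPlus_iff h1 h2) (isClosed_HardyMinus h1 h2) (riesz h1 h2) hr1 hr2 hr3 G
    (fun g => mulL g) (fun g f => mulL_coe g f) (toeplitz h1 h2 G) (toeplitz_apply h1 h2 G)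
    (TAP.S4.Gop G) (TAP.S4.Gop_apply G) (Hm_comp_iff h1 h2) (Hp_comp_iff h1 h2)
    (fun f g hf h => TAP.A3.Hm_congr hf h) (fun f g hf h => TAP.A3.Hp_congr hf h)
  exact this

/-- escaping translations almost commuting with the Toeplitz operator -/
theorem exists_escape (h1 : 1 < p) (h2 : p ≠ ⊤) {n : ℕ} (G : Matrix (Fin n) (Fin n) (ℝ →ᵇ ℂ))
    (hG : ∀ i j, G i j ∈ AP) :
    ∃ V : ℕ → (Fin n → HardyMinus p) ≃ₗᵢ[ℂ] (Fin n → HardyMinus p),
      (∀ f, Tendsto (fun j => ‖toeplitz h1 h2 G (V j f) - V j (toeplitz h1 h2 G f)‖)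
        atTop (𝓝 0)) ∧
      Tendsto (fun j => ‖(toeplitz h1 h2 G).comp
          ((V j).symm : (Fin n → HardyMinus p) →L[ℂ] (Fin n → HardyMinus p))
        - ((V j).symm : (Fin n → HardyMinus p) →L[ℂ] (Fin n → HardyMinus p)).comp
          (toeplitz h1 h2 G)‖) atTop (𝓝 0) ∧
      (∀ (Φ : (Fin n → HardyMinus p) →L[ℂ] ℂ) (f : Fin n → HardyMinus p),
        Tendsto (fun j => Φ (V j f)) atTop (𝓝 0)) ∧
      (∀ (Φ : (Fin n → HardyMinus p) →L[ℂ] ℂ) (f : Fin n → HardyMinus p),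
        Tendsto (fun j => Φ ((V j).symm f)) atTop (𝓝 0)) := by
  obtain ⟨h, hh, hlim⟩ := TAP.S4.exists_escaping_periods G hG
    (fun F hF ε hε => TAP.B1.exists_almost_period hF hε)
  set d : ℕ → ℝ := fun j => ‖riesz (p := p) h1 h2‖ * ∑ i, ∑ k, ‖tr (G i k) (h j) - G i k‖ with hd
  have hd0 : Tendsto d atTop (𝓝 0) := by
    have h3 : Tendsto (fun j => ∑ i, ∑ k, ‖tr (G i k) (h j) - G i k‖) atTop
        (𝓝 (∑ _i : Fin n, ∑ _k : Fin n, (0 : ℝ))) :=
      tendsto_finsetSum _ fun i _ => tendsto_finsetSum _ fun k _ => hlim i k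
    have h4 := h3.const_mul ‖riesz (p := p) h1 h2‖
    simpa using h4
  refine ⟨fun j => W h1 h2 n (h j), fun f => ?_, ?_, fun Φ f => ?_, fun Φ f => ?_⟩
  · have h3 : Tendsto (fun j => d j * ‖f‖) atTop (𝓝 0) := by
      simpa using hd0.mul_const ‖f‖
    exact squeeze_zero (fun _ => norm_nonneg _) (fun j => comm_bound h1 h2 G (h j) f) h3
  · refine squeeze_zero (fun _ => by positivity) (fun j => ?_) hd0
    refine ContinuousLinearMap.opNorm_le_bound _ (by positivity) fun f => ?_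
    have e1 : ((toeplitz h1 h2 G).comp
          ((W h1 h2 n (h j)).symm : (Fin n → HardyMinus p) →L[ℂ] (Fin n → HardyMinus p))
        - ((W h1 h2 n (h j)).symm : (Fin n → HardyMinus p) →L[ℂ] (Fin n → HardyMinus p)).comp
          (toeplitz h1 h2 G)) f
        = -(W h1 h2 n (h j)).symm (toeplitz h1 h2 G (W h1 h2 n (h j) ((W h1 h2 n (h j)).symm f))
          - W h1 h2 n (h j) (toeplitz h1 h2 G ((W h1 h2 n (h j)).symm f))) := by
      rw [map_sub]
      simp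
    rw [e1, norm_neg, LinearIsometryEquiv.norm_map]
    refine (comm_bound h1 h2 G (h j) _).trans (le_of_eq ?_)
    rw [LinearIsometryEquiv.norm_map]
  · exact weak_null h1 h2 Φ h hh f (fun j => W h1 h2 n (h j) f) (fun j i => by
      rw [W_coe]; exact V_coe _ _)
  · refine weak_null h1 h2 Φ (fun j => -(h j)) (by simpa using hh) f
      (fun j => (W h1 h2 n (h j)).symm f) (fun j i => ?_)
    rw [W_symm_coe]
    filter_upwards [V_symm_coe (h j) (f i : LpR p)] with t ht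
    rw [ht, sub_neg_eq_add]

end Pool.Agent.Helper865.ToepAP
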