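import Pool.Agent.Helper865.ToepAP.Defs
import Pool.Agent.Helper865.TAP.D3
import Pool.Agent.Helper865.TAP.D4

set_option autoImplicit false

open MeasureTheory Filter Topology Set Metric
open scoped ENNReal NNReal BoundedContinuousFunction

namespace Pool.Agent.Helper865.ToepAP

open Pool.Agent.Helper865

variable {p : ℝ≥0∞} [Fact (1 ≤ p)]

theorem isClosed_HardyMinus (h1 : 1 < p) (h2 : p ≠ ⊤) :
    IsClosed (HardyMinus p : Set (LpR p)) := by
  apply isClosed_of_closure_subset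
  intro f hf
  obtain ⟨g, hg, hlim⟩ := mem_closure_iff_seq_limit.1 hf
  have h3 : TAP.Hm p (f : ℝ → ℂ) := by
    refine TAP.Hm_closed h1 h2 f (fun n => (g n : ℝ → ℂ)) (Lp.memLp f)
      (fun n => (mem_HardyMinus_iff h1 h2 _).1 (hg n)) ?_
    have h4 := (tendsto_iff_edist_tendsto_0.1 hlim)
    refine h4.congr fun n => ?_
    rw [Lp.edist_def]
    rfl
  exact (mem_HardyMinus_iff h1 h2 f).2 h3

/-- translation operator on `L^p` -/
noncomputable def V (h : ℝ) : LpR p ≃ₗᵢ[ℂ] LpR p :=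
  (exists_translation h).choose

theorem V_coe (h : ℝ) (f : LpR p) :
    (V h f : ℝ → ℂ) =ᵐ[volume] fun t => f (t - h) :=
  (exists_translation h).choose_spec.1 f

theorem V_symm_coe (h : ℝ) (f : LpR p) :
    ((V h).symm f : ℝ → ℂ) =ᵐ[volume] fun t => f (t + h) :=
  (exists_translation h).choose_spec.2 f

theorem V_mem (h1 : 1 < p) (h2 : p ≠ ⊤) (h : ℝ) {f : LpR p}
    (hf : f ∈ HardyMinus p) : V h f ∈ HardyMinus p := by
  rw [mem_HardyMinus_iff h1 h2] at hf ⊢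
  exact TAP.A3.Hm_congr (TAP.A3.Hm_translate hf h) (V_coe h f).symm

theorem V_symm_mem (h1 : 1 < p) (h2 : p ≠ ⊤) (h : ℝ) {f : LpR p}
    (hf : f ∈ HardyMinus p) : (V h).symm f ∈ HardyMinus p := by
  rw [mem_HardyMinus_iff h1 h2] at hf ⊢
  refine TAP.A3.Hm_congr (TAP.A3.Hm_translate hf (-h)) ?_
  filter_upwards [V_symm_coe h f] with t ht
  rw [ht, sub_neg_eq_add]

theorem V_mem_plus (h1 : 1 < p) (h2 : p ≠ ⊤) (h : ℝ) {f : LpR p}
    (hf : f ∈ HardyPlus p) : V h f ∈ HardyPlus p := by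
  rw [mem_HardyPlus_iff h1 h2] at hf ⊢
  exact TAP.A3.Hp_congr (TAP.A3.Hp_translate hf h) (V_coe h f).symm

theorem riesz_V (h1 : 1 < p) (h2 : p ≠ ⊤) (h : ℝ) (f : LpR p) :
    (riesz h1 h2 (V h f) : LpR p) = V h (riesz h1 h2 f) := by
  obtain ⟨hr1, hr2, hr3⟩ := riesz_spec h1 h2
  have e1 : V h f = V h (riesz h1 h2 f)
      + V h (f - (riesz h1 h2 f : LpR p)) := by
    rw [← map_add]; simp
  rw [e1, map_add]
  rw [hr2 _ (V_mem_plus h1 h2 h (hr3 f)), add_zero]
  have e2 := hr1 ⟨V h (riesz h1 h2 f), V_mem h1 h2 h (riesz h1 h2 f).2⟩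
  rw [e2]

/-- the translate of a bounded continuous function -/
noncomputable def tr (g : ℝ →ᵇ ℂ) (h : ℝ) : ℝ →ᵇ ℂ :=
  g.compContinuous ⟨fun t => t + h, by fun_prop⟩

theorem mulL_V (g : ℝ →ᵇ ℂ) (h : ℝ) (f : LpR p) :
    mulL g (V h f) = V h (mulL (tr g h) f) := by
  apply Lp.ext
  have h3 : (fun t => (mulL (tr g h) f : ℝ → ℂ) (t - h))
      =ᵐ[volume] fun t => (tr g h) (t - h) * f (t - h) :=
    (measurePreserving_sub_right volume h).quasiMeasurePreserving.ae_eq (mulL_coe (tr g h) f)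
  filter_upwards [mulL_coe g (V h f), V_coe h f, V_coe h (mulL (tr g h) f), h3] with t e1 e2 e3 e4
  rw [e1, e2, e3, e4]
  simp [tr]

/-- translation on the product of Hardy spaces -/
noncomputable def W (h1 : 1 < p) (h2 : p ≠ ⊤) (n : ℕ) (h : ℝ) :
    (Fin n → HardyMinus p) ≃ₗᵢ[ℂ] (Fin n → HardyMinus p) :=
  (exists_pi_restrict (HardyMinus p) (V h) (fun _ hf => V_mem h1 h2 h hf)
    (fun _ hf => V_symm_mem h1 h2 h hf) n).choose

theorem W_coe (h1 : 1 < p) (h2 : p ≠ ⊤) (n : ℕ) (h : ℝ) (f : Fin n → HardyMinus p) (i : Fin n) :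
    ((W h1 h2 n h f i : HardyMinus p) : LpR p) = V h (f i) :=
  (exists_pi_restrict (HardyMinus p) (V h) (fun _ hf => V_mem h1 h2 h hf)
    (fun _ hf => V_symm_mem h1 h2 h hf) n).choose_spec.1 f i

theorem W_symm_coe (h1 : 1 < p) (h2 : p ≠ ⊤) (n : ℕ) (h : ℝ) (f : Fin n → HardyMinus p)
    (i : Fin n) :
    (((W h1 h2 n h).symm f i : HardyMinus p) : LpR p) = (V h).symm (f i) :=
  (exists_pi_restrict (HardyMinus p) (V h) (fun _ hf => V_mem h1 h2 h hf)
    (fun _ hf => V_symm_mem h1 h2 h hf) n).choose_spec.2 f i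

/-- commutator estimate -/
theorem comm_bound (h1 : 1 < p) (h2 : p ≠ ⊤) {n : ℕ} (G : Matrix (Fin n) (Fin n) (ℝ →ᵇ ℂ))
    (h : ℝ) (f : Fin n → HardyMinus p) :
    ‖toeplitz h1 h2 G (W h1 h2 n h f) - W h1 h2 n h (toeplitz h1 h2 G f)‖
      ≤ (‖riesz (p := p) h1 h2‖ * ∑ i, ∑ j, ‖tr (G i j) h - G i j‖) * ‖f‖ := by
  have hnn : 0 ≤ (‖riesz (p := p) h1 h2‖ * ∑ i, ∑ j, ‖tr (G i j) h - G i j‖) * ‖f‖ := by
    positivity
  rw [pi_norm_le_iff_of_nonneg hnn]
  intro i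
  have e1 : (((toeplitz h1 h2 G (W h1 h2 n h f) - W h1 h2 n h (toeplitz h1 h2 G f)) i :
      HardyMinus p) : LpR p)
      = ∑ j, V h ((riesz h1 h2 (mulL (tr (G i j) h - G i j) (f j)) : HardyMinus p) :
        LpR p) := by
    rw [Pi.sub_apply, Submodule.coe_sub, W_coe, toeplitz_apply, toeplitz_apply]
    rw [Submodule.coe_sum, Submodule.coe_sum, map_sum, ← Finset.sum_sub_distrib]
    refine Finset.sum_congr rfl fun j _ => ?_
    rw [W_coe, mulL_V, riesz_V, ← map_sub, ← Submodule.coe_sub, ← map_sub]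
    congr 3
    apply Lp.ext
    filter_upwards [mulL_coe (tr (G i j) h) (f j : LpR p),
      mulL_coe (G i j) (f j : LpR p),
      mulL_coe (tr (G i j) h - G i j) (f j : LpR p),
      Lp.coeFn_sub (mulL (tr (G i j) h) (f j : LpR p))
        (mulL (G i j) (f j : LpR p))] with t a1 a2 a3 a4
    rw [a4, Pi.sub_apply, a1, a2, a3, BoundedContinuousFunction.sub_apply]
    ring
  change ‖(((toeplitz h1 h2 G (W h1 h2 n h f) - W h1 h2 n h (toeplitz h1 h2 G f)) i :
      HardyMinus p) : LpR p)‖ ≤ _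
  rw [e1]
  calc ‖∑ j, V h ((riesz h1 h2 (mulL (tr (G i j) h - G i j) (f j)) : HardyMinus p) :
        LpR p)‖
      ≤ ∑ j, ‖V h ((riesz h1 h2 (mulL (tr (G i j) h - G i j) (f j)) : HardyMinus p) :
        LpR p)‖ := norm_sum_le _ _
    _ ≤ ∑ j, ‖riesz (p := p) h1 h2‖ * (‖tr (G i j) h - G i j‖ * ‖f‖) := by
        refine Finset.sum_le_sum fun j _ => ?_
        rw [LinearIsometryEquiv.norm_map]
        change ‖riesz h1 h2 (mulL (tr (G i j) h - G i j) (f j))‖ ≤ _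
        refine ((riesz h1 h2).le_opNorm _).trans ?_
        gcongr
        refine ((mulL (p := p) _).le_opNorm _).trans ?_
        gcongr
        · exact norm_mulL_le _
        · exact norm_le_pi_norm f j
    _ = (‖riesz (p := p) h1 h2‖ * ∑ j, ‖tr (G i j) h - G i j‖) * ‖f‖ := by
        rw [← Finset.mul_sum, ← Finset.sum_mul, mul_assoc]
    _ ≤ _ := by
        refine mul_le_mul_of_nonneg_right (mul_le_mul_of_nonneg_left ?_ (by positivity))
          (by positivity)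
        exact Finset.single_le_sum (f := fun i => ∑ j, ‖tr (G i j) h - G i j‖)
          (fun _ _ => by positivity) (Finset.mem_univ i)

/-- weak nullness -/
theorem weak_null (h1 : 1 < p) (h2 : p ≠ ⊤) {n : ℕ} (Φ : (Fin n → HardyMinus p) →L[ℂ] ℂ)
    (h : ℕ → ℝ) (hh : Tendsto (fun j => |h j|) atTop atTop) (f : Fin n → HardyMinus p)
    (g : ℕ → Fin n → HardyMinus p)
    (hg : ∀ j i, ((g j i : HardyMinus p) : LpR p)
      =ᵐ[volume] fun t => ((f i : HardyMinus p) : LpR p) (t - h j)) :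
    Tendsto (fun j => Φ (g j)) atTop (𝓝 0) := by
  have h3 : ∀ i : Fin n, Tendsto (fun j => Φ (Pi.single i (g j i))) atTop (𝓝 0) := by
    intro i
    let φ : HardyMinus p →L[ℂ] ℂ := Φ.comp (ContinuousLinearMap.single ℂ (fun _ => HardyMinus p) i)
    obtain ⟨Ψ, hΨ, _⟩ := exists_extension_norm_eq (HardyMinus p) φ
    have h4 := TAP.D4.weak_null_translates h1 h2 Ψ h hh (f i : LpR p)
      (fun j => (g j i : LpR p)) (fun j => hg j i)
    refine h4.congr fun j => ?_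
    rw [hΨ]
    rfl
  have h4 : ∀ j, Φ (g j) = ∑ i, Φ (Pi.single i (g j i)) := by
    intro j
    rw [← map_sum, Finset.univ_sum_single]
  simp_rw [h4]
  have := tendsto_finsetSum (Finset.univ : Finset (Fin n)) fun i _ => h3 i
  simpa using this

end Pool.Agent.Helper865.ToepAP
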