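import Pool.Agent.Helper865.ToepAP.Base

set_option autoImplicit false

open MeasureTheory Filter Topology Set Metric
open scoped ENNReal NNReal BoundedContinuousFunction

namespace Pool.Agent.Helper865.ToepAP

/-- The Hardy space `H^p` of the lower half-plane as a subspace of `L^p(ℝ)`, via boundary values:
all `f ∈ L^p(ℝ)` such that some `F`, analytic in the open lower half-plane and with
`sup_{y>0} ‖F(· - iy)‖_p < ∞`, satisfies `F(· - iy) → f` in `L^p` as `y → 0+`. -/
noncomputable def HardyMinus (p : ℝ≥0∞) [Fact (1 ≤ p)] :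
    Submodule ℂ (LpR p) where
  carrier := {f | ∃ F : ℂ → ℂ, DifferentiableOn ℂ F {z : ℂ | z.im < 0} ∧
    (∃ C : ℝ≥0, ∀ y : ℝ, 0 < y →
      eLpNorm (fun x : ℝ => F ((x : ℂ) - y * Complex.I)) p volume ≤ C) ∧
    Tendsto (fun y : ℝ => eLpNorm (fun x : ℝ => F ((x : ℂ) - y * Complex.I) - f x) p volume)
      (𝓝[>] 0) (𝓝 0)}
  zero_mem' := by
    refine ⟨fun _ => 0, differentiableOn_const _, ⟨0, fun y _ => by simp⟩, ?_⟩
    have h : ∀ y : ℝ, eLpNorm (fun x : ℝ => (fun _ : ℂ => (0 : ℂ)) ((x : ℂ) - y * Complex.I) -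
        (0 : LpR p) x) p volume = 0 := by
      intro y
      rw [eLpNorm_congr_ae (g := fun _ => (0 : ℂ)) ?_]
      · simp
      · filter_upwards [Lp.coeFn_zero ℂ p (volume : Measure ℝ)] with x hx
        change (0 : ℂ) - (0 : LpR p) x = 0
        rw [hx]
        simp
    exact tendsto_const_nhds.congr fun y => (h y).symm
  add_mem' := by
    rintro f g ⟨F, hF, ⟨C, hC⟩, hFt⟩ ⟨G, hG, ⟨D, hD⟩, hGt⟩
    have hp : 1 ≤ p := Fact.out
    have hm : ∀ F : ℂ → ℂ, DifferentiableOn ℂ F {z : ℂ | z.im < 0} → ∀ y : ℝ, 0 < y →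
        AEStronglyMeasurable (fun x : ℝ => F ((x : ℂ) - y * Complex.I)) volume := by
      intro F hF y hy
      refine (ContinuousOn.comp_continuous hF.continuousOn (by fun_prop) ?_).aestronglyMeasurable
      intro x
      simp [hy]
    refine ⟨fun z => F z + G z, hF.add hG, ⟨C + D, fun y hy => ?_⟩, ?_⟩
    · calc eLpNorm (fun x : ℝ => F ((x : ℂ) - y * Complex.I) + G ((x : ℂ) - y * Complex.I)) p volume
          ≤ eLpNorm (fun x : ℝ => F ((x : ℂ) - y * Complex.I)) p volume +
            eLpNorm (fun x : ℝ => G ((x : ℂ) - y * Complex.I)) p volume :=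
            eLpNorm_add_le (hm F hF y hy) (hm G hG y hy) hp
        _ ≤ ((C + D : ℝ≥0) : ℝ≥0∞) := by
            rw [ENNReal.coe_add]
            exact add_le_add (hC y hy) (hD y hy)
    · have hs := hFt.add hGt
      rw [add_zero] at hs
      refine tendsto_of_tendsto_of_tendsto_of_le_of_le' tendsto_const_nhds hs
        (Filter.Eventually.of_forall fun _ => zero_le) ?_
      filter_upwards [self_mem_nhdsWithin] with y hy
      have hfm : AEStronglyMeasurable (fun x : ℝ => F ((x : ℂ) - y * Complex.I) - f x) volume :=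
        (hm F hF y hy).sub (Lp.aestronglyMeasurable f)
      have hgm : AEStronglyMeasurable (fun x : ℝ => G ((x : ℂ) - y * Complex.I) - g x) volume :=
        (hm G hG y hy).sub (Lp.aestronglyMeasurable g)
      refine le_trans (le_of_eq ?_) (eLpNorm_add_le hfm hgm hp)
      refine eLpNorm_congr_ae ?_
      filter_upwards [Lp.coeFn_add f g] with x hx
      simp only [hx, Pi.add_apply]
      ring
  smul_mem' := by
    rintro c f ⟨F, hF, ⟨C, hC⟩, hFt⟩
    refine ⟨fun z => c * F z, hF.const_mul c, ⟨‖c‖₊ * C, fun y hy => ?_⟩, ?_⟩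
    · have h := eLpNorm_const_smul (μ := volume) (p := p) c
        (fun x : ℝ => F ((x : ℂ) - y * Complex.I))
      have h2 : (c • fun x : ℝ => F ((x : ℂ) - y * Complex.I)) =
        fun x : ℝ => c * F ((x : ℂ) - y * Complex.I) := rfl
      rw [h2] at h
      rw [h, ENNReal.coe_mul]
      exact mul_le_mul' (le_of_eq rfl) (hC y hy)
    · have hs := ENNReal.Tendsto.const_mul (a := ‖c‖ₑ) hFt (Or.inr enorm_ne_top)
      rw [mul_zero] at hs
      refine hs.congr fun y => ?_
      rw [← eLpNorm_const_smul]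
      refine eLpNorm_congr_ae ?_
      filter_upwards [Lp.coeFn_smul c f] with x hx
      simp only [hx, Pi.smul_apply, smul_eq_mul]
      ring

/-- The Hardy space `H^p` of the upper half-plane as a subspace of `L^p(ℝ)`. -/
noncomputable def HardyPlus (p : ℝ≥0∞) [Fact (1 ≤ p)] :
    Submodule ℂ (LpR p) where
  carrier := {f | ∃ F : ℂ → ℂ, DifferentiableOn ℂ F {z : ℂ | 0 < z.im} ∧
    (∃ C : ℝ≥0, ∀ y : ℝ, 0 < y →
      eLpNorm (fun x : ℝ => F ((x : ℂ) + y * Complex.I)) p volume ≤ C) ∧
    Tendsto (fun y : ℝ => eLpNorm (fun x : ℝ => F ((x : ℂ) + y * Complex.I) - f x) p volume)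
      (𝓝[>] 0) (𝓝 0)}
  zero_mem' := by
    refine ⟨fun _ => 0, differentiableOn_const _, ⟨0, fun y _ => by simp⟩, ?_⟩
    have h : ∀ y : ℝ, eLpNorm (fun x : ℝ => (fun _ : ℂ => (0 : ℂ)) ((x : ℂ) + y * Complex.I) -
        (0 : LpR p) x) p volume = 0 := by
      intro y
      rw [eLpNorm_congr_ae (g := fun _ => (0 : ℂ)) ?_]
      · simp
      · filter_upwards [Lp.coeFn_zero ℂ p (volume : Measure ℝ)] with x hx
        change (0 : ℂ) - (0 : LpR p) x = 0
        rw [hx]
        simp
    exact tendsto_const_nhds.congr fun y => (h y).symm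
  add_mem' := by
    rintro f g ⟨F, hF, ⟨C, hC⟩, hFt⟩ ⟨G, hG, ⟨D, hD⟩, hGt⟩
    have hp : 1 ≤ p := Fact.out
    have hm : ∀ F : ℂ → ℂ, DifferentiableOn ℂ F {z : ℂ | 0 < z.im} → ∀ y : ℝ, 0 < y →
        AEStronglyMeasurable (fun x : ℝ => F ((x : ℂ) + y * Complex.I)) volume := by
      intro F hF y hy
      refine (ContinuousOn.comp_continuous hF.continuousOn (by fun_prop) ?_).aestronglyMeasurable
      intro x
      simp [hy]
    refine ⟨fun z => F z + G z, hF.add hG, ⟨C + D, fun y hy => ?_⟩, ?_⟩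
    · calc eLpNorm (fun x : ℝ => F ((x : ℂ) + y * Complex.I) + G ((x : ℂ) + y * Complex.I)) p volume
          ≤ eLpNorm (fun x : ℝ => F ((x : ℂ) + y * Complex.I)) p volume +
            eLpNorm (fun x : ℝ => G ((x : ℂ) + y * Complex.I)) p volume :=
            eLpNorm_add_le (hm F hF y hy) (hm G hG y hy) hp
        _ ≤ ((C + D : ℝ≥0) : ℝ≥0∞) := by
            rw [ENNReal.coe_add]
            exact add_le_add (hC y hy) (hD y hy)
    · have hs := hFt.add hGt
      rw [add_zero] at hs
      refine tendsto_of_tendsto_of_tendsto_of_le_of_le' tendsto_const_nhds hs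
        (Filter.Eventually.of_forall fun _ => zero_le) ?_
      filter_upwards [self_mem_nhdsWithin] with y hy
      have hfm : AEStronglyMeasurable (fun x : ℝ => F ((x : ℂ) + y * Complex.I) - f x) volume :=
        (hm F hF y hy).sub (Lp.aestronglyMeasurable f)
      have hgm : AEStronglyMeasurable (fun x : ℝ => G ((x : ℂ) + y * Complex.I) - g x) volume :=
        (hm G hG y hy).sub (Lp.aestronglyMeasurable g)
      refine le_trans (le_of_eq ?_) (eLpNorm_add_le hfm hgm hp)
      refine eLpNorm_congr_ae ?_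
      filter_upwards [Lp.coeFn_add f g] with x hx
      simp only [hx, Pi.add_apply]
      ring
  smul_mem' := by
    rintro c f ⟨F, hF, ⟨C, hC⟩, hFt⟩
    refine ⟨fun z => c * F z, hF.const_mul c, ⟨‖c‖₊ * C, fun y hy => ?_⟩, ?_⟩
    · have h := eLpNorm_const_smul (μ := volume) (p := p) c
        (fun x : ℝ => F ((x : ℂ) + y * Complex.I))
      have h2 : (c • fun x : ℝ => F ((x : ℂ) + y * Complex.I)) =
        fun x : ℝ => c * F ((x : ℂ) + y * Complex.I) := rfl
      rw [h2] at h
      rw [h, ENNReal.coe_mul]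
      exact mul_le_mul' (le_of_eq rfl) (hC y hy)
    · have hs := ENNReal.Tendsto.const_mul (a := ‖c‖ₑ) hFt (Or.inr enorm_ne_top)
      rw [mul_zero] at hs
      refine hs.congr fun y => ?_
      rw [← eLpNorm_const_smul]
      refine eLpNorm_congr_ae ?_
      filter_upwards [Lp.coeFn_smul c f] with x hx
      simp only [hx, Pi.smul_apply, smul_eq_mul]
      ring

end Pool.Agent.Helper865.ToepAP
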