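import Pool.Agent.Helper865.ToepAP.Escape

set_option autoImplicit false

open MeasureTheory Filter Topology Set Metric
open scoped ENNReal NNReal BoundedContinuousFunction

namespace Pool.Agent.Helper865.ToepAP

open Pool.Agent.Helper865

section gen

variable {Y : Type*} [NormedAddCommGroup Y] [NormedSpace ℂ Y] (H : Submodule ℂ Y)
  [CompleteSpace H] {n : ℕ}

theorem left_iff_gen (T : (Fin n → H) →L[ℂ] (Fin n → H))
    (V : ℕ → (Fin n → H) ≃ₗᵢ[ℂ] (Fin n → H))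
    (hV1 : ∀ f, Tendsto (fun j => ‖T (V j f) - V j (T f)‖) atTop (𝓝 0))
    (hV3 : ∀ (Φ : (Fin n → H) →L[ℂ] ℂ) (f : Fin n → H),
        Tendsto (fun j => Φ (V j f)) atTop (𝓝 0)) :
    LeftFredholm (X := Fin n → H) T ↔ ∃ c : ℝ, 0 < c ∧ ∀ f, ‖f‖ ≤ c * ‖T f‖ := by
  constructor
  · intro h
    exact TAP.D3.bounded_below_of_leftFredholm (X := Fin n → H) T V hV1 hV3 h.1 h.2
  · rintro ⟨c, _, hc⟩
    exact TAP.D3.leftFredholm_of_bounded_below (X := Fin n → H) T c hc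

theorem right_iff_gen (T : (Fin n → H) →L[ℂ] (Fin n → H))
    (V : ℕ → (Fin n → H) ≃ₗᵢ[ℂ] (Fin n → H))
    (hV2 : Tendsto (fun j => ‖T.comp ((V j).symm : (Fin n → H) →L[ℂ] (Fin n → H))
        - ((V j).symm : (Fin n → H) →L[ℂ] (Fin n → H)).comp T‖) atTop (𝓝 0))
    (hV4 : ∀ (Φ : (Fin n → H) →L[ℂ] ℂ) (f : Fin n → H),
        Tendsto (fun j => Φ ((V j).symm f)) atTop (𝓝 0)) :
    RightFredholm (X := Fin n → H) T ↔ Function.Surjective T := by
  constructor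
  · intro h
    exact TAP.D3.surjective_of_rightFredholm (X := Fin n → H) T V hV2 hV4 h.1 h.2
  · intro h
    exact TAP.D3.rightFredholm_of_surjective (X := Fin n → H) T h

end gen

variable {p : ℝ≥0∞} [Fact (1 ≤ p)]

theorem leftFredholm_iff (h1 : 1 < p) (h2 : p ≠ ⊤) {n : ℕ}
    (G : Matrix (Fin n) (Fin n) (ℝ →ᵇ ℂ)) (hG : ∀ i j, G i j ∈ AP) :
    LeftFredholm (X := Fin n → HardyMinus p) (toeplitz h1 h2 G) ↔
      ∃ c : ℝ, 0 < c ∧ ∀ f, ‖f‖ ≤ c * ‖toeplitz h1 h2 G f‖ := by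
  have hc : CompleteSpace (HardyMinus p) := (isClosed_HardyMinus h1 h2).completeSpace_coe
  obtain ⟨V, hV1, hV2, hV3, hV4⟩ := exists_escape h1 h2 G hG
  exact left_iff_gen (HardyMinus p) (toeplitz h1 h2 G) V hV1 hV3

theorem rightFredholm_iff (h1 : 1 < p) (h2 : p ≠ ⊤) {n : ℕ}
    (G : Matrix (Fin n) (Fin n) (ℝ →ᵇ ℂ)) (hG : ∀ i j, G i j ∈ AP) :
    RightFredholm (X := Fin n → HardyMinus p) (toeplitz h1 h2 G) ↔
      Function.Surjective (toeplitz h1 h2 G) := by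
  have hc : CompleteSpace (HardyMinus p) := (isClosed_HardyMinus h1 h2).completeSpace_coe
  obtain ⟨V, hV1, hV2, hV3, hV4⟩ := exists_escape h1 h2 G hG
  exact right_iff_gen (HardyMinus p) (toeplitz h1 h2 G) V hV2 hV4

theorem left_indep {q : ℝ≥0∞} [Fact (1 ≤ q)] (h1 : 1 < p) (h2 : p ≠ ⊤) (h1' : 1 < q) (h2' : q ≠ ⊤)
    {n : ℕ} (G : Matrix (Fin n) (Fin n) (ℝ →ᵇ ℂ)) (hG : ∀ i j, G i j ∈ AP)
    (h : LeftFredholm (X := Fin n → HardyMinus p) (toeplitz h1 h2 G)) :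
    LeftFredholm (X := Fin n → HardyMinus q) (toeplitz h1' h2' G) := by
  have hpr : ENNReal.ofReal p.toReal = p := ENNReal.ofReal_toReal h2
  have hqr : ENNReal.ofReal q.toReal = q := ENNReal.ofReal_toReal h2'
  have hp1 : 1 < p.toReal := by
    simpa using (ENNReal.toReal_lt_toReal ENNReal.one_ne_top h2).2 h1
  have hq1 : 1 < q.toReal := by
    simpa using (ENNReal.toReal_lt_toReal ENNReal.one_ne_top h2').2 h1'
  have e1 := (link h1 h2 G).1.2 ((leftFredholm_iff h1 h2 G hG).1 h)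
  rw [← hpr] at e1
  have e2 := TAP.BB_indep (TAP.S4.IsAP_Gop G hG) hp1 hq1 e1
  rw [hqr] at e2
  exact (leftFredholm_iff h1' h2' G hG).2 ((link h1' h2' G).1.1 e2)

theorem right_indep {q : ℝ≥0∞} [Fact (1 ≤ q)] (h1 : 1 < p) (h2 : p ≠ ⊤) (h1' : 1 < q)
    (h2' : q ≠ ⊤) {n : ℕ} (G : Matrix (Fin n) (Fin n) (ℝ →ᵇ ℂ)) (hG : ∀ i j, G i j ∈ AP)
    (h : RightFredholm (X := Fin n → HardyMinus p) (toeplitz h1 h2 G)) :
    RightFredholm (X := Fin n → HardyMinus q) (toeplitz h1' h2' G) := by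
  have hpr : ENNReal.ofReal p.toReal = p := ENNReal.ofReal_toReal h2
  have hqr : ENNReal.ofReal q.toReal = q := ENNReal.ofReal_toReal h2'
  have hp1 : 1 < p.toReal := by
    simpa using (ENNReal.toReal_lt_toReal ENNReal.one_ne_top h2).2 h1
  have hq1 : 1 < q.toReal := by
    simpa using (ENNReal.toReal_lt_toReal ENNReal.one_ne_top h2').2 h1'
  have e1 := (link h1 h2 G).2.2 ((rightFredholm_iff h1 h2 G hG).1 h)
  rw [← hpr] at e1
  have e2 := TAP.OO_indep (TAP.S4.IsAP_Gop G hG) hp1 hq1 e1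
  rw [hqr] at e2
  exact (rightFredholm_iff h1' h2' G hG).2 ((link h1' h2' G).2.1 e2)

end Pool.Agent.Helper865.ToepAP
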